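import Mathlib

/-!
# Swarm DT, part I0: algebraic independence of power series
-/

set_option autoImplicit false

namespace Pool.Agent.Helper12.DT

open MvPolynomial

theorem indep_series {k : Type} [Field k] [Algebra ℂ k] {K : Type} [Field K] [Algebra ℂ K]
    (j : k →ₐ[ℂ] K) {m : ℕ} {s : Fin m → K}
    (hs : ∀ P : MvPolynomial (Fin m) k, P ≠ 0 → P.eval₂ (j : k →+* K) s ≠ 0) (c : Fin m → k)
    (M : Matrix (Fin m) (Fin m) k) (hM : M.det ≠ 0) (P : Fin m → PowerSeries K)
    (h0 : ∀ i, PowerSeries.coeff 0 (P i) = j (c i))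
    (h1 : ∀ i, PowerSeries.coeff 1 (P i) = ∑ l, j (M i l) * s l) : AlgebraicIndependent ℂ P := by
  rw [algebraicIndependent_iff]
  intro Q hQ
  by_contra hQ0
  -- shift
  set C' : k →+* PowerSeries K := (PowerSeries.C (R := K)).comp (j : k →+* K) with hC'
  set Qk : MvPolynomial (Fin m) k := MvPolynomial.map (algebraMap ℂ k) Q with hQk
  have hQk0 : Qk ≠ 0 := by
    intro h
    apply hQ0
    apply MvPolynomial.map_injective (algebraMap ℂ k) (algebraMap ℂ k).injective
    rw [← hQk, h, map_zero]
  set Q' : MvPolynomial (Fin m) k := bind₁ (fun i => X i + C (c i)) Qk with hQ'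
  have hQ'0 : Q' ≠ 0 := by
    intro h
    apply hQk0
    have e : bind₁ (fun i => X i - C (c i)) Q' = Qk := by
      rw [hQ', bind₁_bind₁]
      have : (fun i => bind₁ (fun i => (X i - C (c i) : MvPolynomial (Fin m) k)) (X i + C (c i))) = X := by
        funext i
        rw [map_add, bind₁_X_right, bind₁_C_right, sub_add_cancel]
      rw [this, bind₁_X_left]
      rfl
    rw [← e, h, map_zero]
  -- the power series without constant term
  have hy : ∀ i, ∃ y : PowerSeries K, P i - PowerSeries.C (j (c i)) = PowerSeries.X * y := by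
    intro i
    have : (PowerSeries.X : PowerSeries K) ∣ P i - PowerSeries.C (j (c i)) := by
      rw [PowerSeries.X_dvd_iff, map_sub, ← PowerSeries.coeff_zero_eq_constantCoeff_apply, h0]
      simp
    exact this
  choose y hy using hy
  set u : Fin m → K := fun i => ∑ l, j (M i l) * s l with hu
  have hyu : ∀ i, PowerSeries.constantCoeff (y i) = u i := by
    intro i
    have h2 := congrArg (PowerSeries.coeff 1) (hy i)
    rw [map_sub, h1, show (1 : ℕ) = 0 + 1 from rfl, PowerSeries.coeff_succ_X_mul,
      PowerSeries.coeff_C, if_neg (by norm_num), sub_zero] at h2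
    rw [← PowerSeries.coeff_zero_eq_constantCoeff_apply, ← h2]
  have hev : eval₂ C' (fun i => PowerSeries.X * y i) Q' = 0 := by
    rw [hQ', ← coe_eval₂Hom, eval₂Hom_bind₁]
    have e1 : (fun i => eval₂Hom C' (fun i => PowerSeries.X * y i) (X i + C (c i))) = P := by
      funext i
      rw [map_add, eval₂Hom_X', eval₂Hom_C, ← hy i, hC']
      simp
    rw [e1, hQk, eval₂Hom_map_hom]
    have e2 : C'.comp (algebraMap ℂ k) = algebraMap ℂ (PowerSeries K) := by
      refine RingHom.ext fun a => ?_
      rw [hC', RingHom.comp_apply, RingHom.comp_apply, RingHom.coe_coe, AlgHom.commutes,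
        PowerSeries.algebraMap_apply]
    rw [e2]
    exact hQ
  -- the lowest homogeneous component
  obtain ⟨d0, hd0, hmin⟩ := Finset.exists_min_image Q'.support (fun d => d.degree)
    (support_nonempty.2 hQ'0)
  set e := d0.degree with he
  set H := homogeneousComponent e Q' with hH
  have hH0 : H ≠ 0 := by
    intro h
    have h2 := congrArg (coeff d0) h
    rw [hH, coeff_homogeneousComponent, if_pos he.symm, coeff_zero] at h2
    exact (mem_support_iff.1 hd0) h2
  have hHu : eval₂ (j : k →+* K) u H = 0 := by
    have h2 := congrArg (PowerSeries.coeff e) hev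
    rw [eval₂_eq', map_sum, map_zero] at h2
    rw [hH, homogeneousComponent_apply, eval₂_sum, Finset.sum_filter]
    refine Eq.trans (Finset.sum_congr rfl fun d hd => ?_) h2
    have h3 : ∏ i, ((PowerSeries.X : PowerSeries K) * y i) ^ d i =
        PowerSeries.X ^ d.degree * ∏ i, y i ^ d i := by
      rw [Finset.prod_congr rfl fun i _ => mul_pow (PowerSeries.X : PowerSeries K) (y i) (d i),
        Finset.prod_mul_distrib, Finset.prod_pow_eq_pow_sum, Finsupp.degree_eq_sum]
    rw [h3, hC']
    rw [RingHom.comp_apply, PowerSeries.coeff_C_mul, PowerSeries.coeff_X_pow_mul']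
    have h4 := hmin d hd
    split_ifs with h5 h6 h6
    · rw [← h5, Nat.sub_self, PowerSeries.coeff_zero_eq_constantCoeff_apply, map_prod,
        eval₂_monomial, Finsupp.prod_fintype _ _ (fun i => pow_zero _)]
      congr 1
      refine Finset.prod_congr rfl fun i _ => ?_
      rw [map_pow, hyu]
    · omega
    · omega
    · rw [mul_zero]
  -- linear substitution
  set H' : MvPolynomial (Fin m) k := bind₁ (fun i => ∑ l, C (M i l) * X l) H with hH'
  have hH'0 : H' ≠ 0 := by
    intro h
    apply hH0
    have e1 : bind₁ (fun i => ∑ l, C (M⁻¹ i l) * X l) H' = H := by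
      rw [hH', bind₁_bind₁]
      have : (fun i => bind₁ (fun i => (∑ l, C (M⁻¹ i l) * X l : MvPolynomial (Fin m) k))
          (∑ l, C (M i l) * X l)) = X := by
        funext i
        rw [map_sum]
        simp only [map_mul, bind₁_X_right, bind₁_C_right, Finset.mul_sum]
        rw [Finset.sum_comm]
        have e2 : ∀ p, ∑ l, C (M i l) * (C (M⁻¹ l p) * X p) =
            C ((M * M⁻¹) i p) * (X p : MvPolynomial (Fin m) k) := by
          intro p
          rw [Matrix.mul_apply, map_sum, Finset.sum_mul]
          refine Finset.sum_congr rfl fun l _ => ?_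
          rw [map_mul, mul_assoc]
        rw [Finset.sum_congr rfl fun p _ => e2 p, Matrix.mul_nonsing_inv _ (isUnit_iff_ne_zero.2 hM)]
        simp [Matrix.one_apply]
      rw [this, bind₁_X_left]
      rfl
    rw [← e1, h, map_zero]
  refine hs H' hH'0 ?_
  rw [hH', ← coe_eval₂Hom, eval₂Hom_bind₁]
  have e3 : (fun i => eval₂Hom (j : k →+* K) s (∑ l, C (M i l) * X l)) = u := by
    funext i
    rw [map_sum]
    simp [hu]
  rw [e3]
  exact hHu

end Pool.Agent.Helper12.DT
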